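import Mathlib

/-!
# MP_c50127: for `n = 506` no Christoffel word has the minimum number of Lyndon factors

The Lyndon word `W` of length 506 below has only 16 distinct Lyndon factors (of lengths
1, 1, 2, 3, 5, 8, 13, 18, 21, 26, 47, 73, 120, 193, 313, 506), while every Christoffel word of
length 506 has at least 17: its Stern-Brocot path has length at least 14, and the letters and
all the words on the path are Lyndon factors.
-/

set_option autoImplicit false

namespace Pool.Agent.Results.MP_c50127_co.LengthFiveHundredSix

/-- The (strict) lexicographic order on words over `a = false < b = true`. -/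
def lt : List Bool → List Bool → Bool
  | _, [] => false
  | [], _ :: _ => true
  | x :: u, y :: v => (!x && y) || (x == y && lt u v)

/-- Lyndon words: nonempty, strictly smaller than each of its proper nonempty suffixes. -/
def Lyndon (w : List Bool) : Prop :=
  w ≠ [] ∧ ∀ u v, w = u ++ v → u ≠ [] → v ≠ [] → lt w v = true

/-- `L(w)`: the number of distinct factors of `w` that are Lyndon words. -/
noncomputable def L (w : List Bool) : ℕ := {u : List Bool | Lyndon u ∧ u <:+: w}.ncard

/-- `m(n)`: the minimum of `L(w)` over the Lyndon words `w` of length `n`. -/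
noncomputable def m (n : ℕ) : ℕ := sInf {k | ∃ w, Lyndon w ∧ w.length = n ∧ L w = k}

/-- The word `w_1 ⋯ w_n` with `w_(i+1) = a` iff `⌊(i+1)p/n⌋ = ⌊ip/n⌋`. -/
def christoffel (n p : ℕ) : List Bool :=
  (List.range n).map fun i => !((i + 1) * p / n == i * p / n)

/-! ### The lexicographic order -/

theorem lt_nil (u : List Bool) : lt u [] = false := by cases u <;> rfl

theorem lt_append (x u v : List Bool) : lt (x ++ u) (x ++ v) = lt u v := by
  induction x with
  | nil => rfl
  | cons a x ih => simp [lt, ih]

theorem lt_iff (u v : List Bool) : lt u v = true ↔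
    (∃ r, r ≠ [] ∧ v = u ++ r) ∨
      ∃ x u' v', u = x ++ false :: u' ∧ v = x ++ true :: v' := by
  induction u generalizing v with
  | nil =>
    cases v with
    | nil => simp [lt]
    | cons y v => simp [lt]
  | cons a u ih =>
    cases v with
    | nil => simp [lt]
    | cons y v =>
      constructor
      · intro h
        unfold lt at h
        rw [Bool.or_eq_true, Bool.and_eq_true, Bool.and_eq_true, beq_iff_eq] at h
        rcases h with ⟨h1, h2⟩ | ⟨h1, h2⟩
        · right
          refine ⟨[], u, v, ?_, ?_⟩
          · rw [Bool.not_eq_true'] at h1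
            rw [h1]; rfl
          · rw [h2]; rfl
        · subst h1
          rcases (ih v).1 h2 with ⟨r, hr, rfl⟩ | ⟨x, u', v', rfl, rfl⟩
          · exact Or.inl ⟨r, hr, rfl⟩
          · exact Or.inr ⟨a :: x, u', v', rfl, rfl⟩
      · rintro (⟨r, hr, h⟩ | ⟨x, u', v', h1, h2⟩)
        · rw [List.cons_append, List.cons.injEq] at h
          obtain ⟨rfl, rfl⟩ := h
          unfold lt
          rw [Bool.or_eq_true, Bool.and_eq_true, Bool.and_eq_true, beq_iff_eq]
          exact Or.inr ⟨rfl, (ih _).2 (Or.inl ⟨r, hr, rfl⟩)⟩
        · rw [h1, h2, lt_append]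
          rfl

theorem lt_prefix (u v : List Bool) : lt (u ++ v) u = false := by
  have := lt_append u v []
  rw [List.append_nil, lt_nil] at this
  exact this

/-- a strict inequality at a common position -/
theorem lt_diff (x u v : List Bool) : lt (x ++ false :: u) (x ++ true :: v) = true := by
  rw [lt_append]; rfl

theorem lt_diff' (x u v : List Bool) : lt (x ++ true :: u) (x ++ false :: v) = false := by
  rw [lt_append]; rfl

theorem lt_trans' {u v w : List Bool} (h1 : lt u v = true) (h2 : lt v w = true) :
    lt u w = true := by
  induction u generalizing v w with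
  | nil =>
    cases w with
    | nil => rw [lt_nil] at h2; exact absurd h2 (by decide)
    | cons c w => rfl
  | cons a u ih =>
    cases v with
    | nil => rw [lt_nil] at h1; exact absurd h1 (by decide)
    | cons b v =>
      cases w with
      | nil => rw [lt_nil] at h2; exact absurd h2 (by decide)
      | cons c w =>
        unfold lt at h1 h2 ⊢
        rw [Bool.or_eq_true, Bool.and_eq_true, Bool.and_eq_true, beq_iff_eq] at h1 h2 ⊢
        rcases h1 with ⟨h1, h1'⟩ | ⟨h1, h1'⟩
        · rcases h2 with ⟨h2, h2'⟩ | ⟨h2, h2'⟩
          · exact Or.inl ⟨h1, h2'⟩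
          · exact Or.inl ⟨h1, h2 ▸ h1'⟩
        · rcases h2 with ⟨h2, h2'⟩ | ⟨h2, h2'⟩
          · exact Or.inl ⟨h1 ▸ h2, h2'⟩
          · exact Or.inr ⟨h1.trans h2, ih h1' h2'⟩

/-! ### Products of Lyndon words -/

theorem lyndon_append {u v : List Bool} (hu : Lyndon u) (hv : Lyndon v) (h : lt u v = true) :
    Lyndon (u ++ v) ∧ lt u (u ++ v) = true ∧ lt (u ++ v) v = true := by
  have h1 : lt (u ++ v) v = true := by
    rcases (lt_iff u v).1 h with ⟨r, hr, rfl⟩ | ⟨x, u', v', rfl, rfl⟩
    · rw [lt_append]
      exact hv.2 u r rfl hu.1 hr
    · rw [List.append_assoc, List.cons_append]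
      exact lt_diff _ _ _
  refine ⟨⟨fun h0 => hu.1 (List.append_eq_nil_iff.1 h0).1, ?_⟩, ?_, h1⟩
  · intro s t hst hs ht
    rcases List.append_eq_append_iff.1 hst with ⟨s', hs1, hs2⟩ | ⟨s', hs1, hs2⟩
    · -- s = u ++ s', v = s' ++ t
      by_cases h0 : s' = []
      · subst h0
        rw [List.nil_append] at hs2
        rw [← hs2]; exact h1
      · exact lt_trans' h1 (hv.2 s' t hs2 h0 ht)
    · -- u = s ++ s', t = s' ++ v
      by_cases h0 : s' = []
      · subst h0
        rw [List.nil_append] at hs2
        rw [hs2]; exact h1
      · have h2 := hu.2 s s' hs1 hs h0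
        rcases (lt_iff u s').1 h2 with ⟨r, hr, hr'⟩ | ⟨x, u', v', hx1, hx2⟩
        · exfalso
          have e1 := congrArg List.length hs1
          have e2 := congrArg List.length hr'
          rw [List.length_append] at e1 e2
          have e3 := List.length_pos_iff.2 hs
          omega
        · rw [hs2, hx1, hx2]
          simp only [List.append_assoc, List.cons_append]
          exact lt_diff _ _ _
  · exact (lt_iff _ _).2 (Or.inl ⟨v, hv.1, rfl⟩)

/-! ### Stern-Brocot paths -/

/-- the word at the end of a Stern-Brocot path -/
def fin : List Bool → List Bool → List Bool → List Bool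
  | [], l, r => l ++ r
  | d :: ds, l, r => if d then fin ds (l ++ r) r else fin ds l (l ++ r)

theorem fin_infix (π l r : List Bool) : l <:+: fin π l r ∧ r <:+: fin π l r := by
  induction π generalizing l r with
  | nil => exact ⟨(List.prefix_append l r).isInfix, (List.suffix_append l r).isInfix⟩
  | cons d π ih =>
    unfold fin
    split_ifs
    · obtain ⟨h1, h2⟩ := ih (l ++ r) r
      exact ⟨(List.prefix_append l r).isInfix.trans h1, h2⟩
    · obtain ⟨h1, h2⟩ := ih l (l ++ r)
      exact ⟨h1, (List.suffix_append l r).isInfix.trans h2⟩

theorem fin_factors (π : List Bool) : ∀ l r : List Bool, Lyndon l → Lyndon r → lt l r = true →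
    ∃ S : Finset (List Bool), S.card = π.length + 1 ∧
      ∀ w ∈ S, Lyndon w ∧ w <:+: fin π l r ∧ l.length + r.length ≤ w.length := by
  induction π with
  | nil =>
    intro l r hl hr h
    refine ⟨{l ++ r}, by simp, ?_⟩
    intro w hw
    rw [Finset.mem_singleton] at hw
    subst hw
    exact ⟨(lyndon_append hl hr h).1, List.infix_rfl, by rw [List.length_append]⟩
  | cons d π ih =>
    intro l r hl hr h
    obtain ⟨h1, h2, h3⟩ := lyndon_append hl hr h
    have hl0 := List.length_pos_iff.2 hl.1
    have hr0 := List.length_pos_iff.2 hr.1
    cases d with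
    | true =>
      obtain ⟨S, hS1, hS2⟩ := ih (l ++ r) r h1 hr h3
      have hnot : l ++ r ∉ S := by
        intro hm
        have := (hS2 _ hm).2.2
        rw [List.length_append] at this
        omega
      refine ⟨insert (l ++ r) S, by rw [Finset.card_insert_of_notMem hnot, hS1]; rfl, ?_⟩
      intro w hw
      rw [Finset.mem_insert] at hw
      rcases hw with rfl | hw
      · exact ⟨h1, (fin_infix π (l ++ r) r).1, by rw [List.length_append]⟩
      · obtain ⟨g1, g2, g3⟩ := hS2 w hw
        rw [List.length_append] at g3
        exact ⟨g1, g2, by omega⟩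
    | false =>
      obtain ⟨S, hS1, hS2⟩ := ih l (l ++ r) hl h1 h2
      have hnot : l ++ r ∉ S := by
        intro hm
        have := (hS2 _ hm).2.2
        rw [List.length_append] at this
        omega
      refine ⟨insert (l ++ r) S, by rw [Finset.card_insert_of_notMem hnot, hS1]; rfl, ?_⟩
      intro w hw
      rw [Finset.mem_insert] at hw
      rcases hw with rfl | hw
      · exact ⟨h1, (fin_infix π l (l ++ r)).2, by rw [List.length_append]⟩
      · obtain ⟨g1, g2, g3⟩ := hS2 w hw
        rw [List.length_append] at g3
        exact ⟨g1, g2, by omega⟩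

theorem lyndon_letter (c : Bool) : Lyndon [c] := by
  refine ⟨by simp, ?_⟩
  intro u v h hu hv
  exfalso
  have e := congrArg List.length h
  rw [List.length_append] at e
  have e1 := List.length_pos_iff.2 hu
  have e2 := List.length_pos_iff.2 hv
  simp only [List.length_cons, List.length_nil] at e
  omega

theorem finite_factors (w : List Bool) : {u : List Bool | Lyndon u ∧ u <:+: w}.Finite := by
  apply Set.Finite.subset (w.sublists.toFinset.finite_toSet)
  intro u hu
  rw [Finset.mem_coe, List.mem_toFinset, List.mem_sublists]
  exact hu.2.sublist

theorem L_fin (π : List Bool) : π.length + 3 ≤ L (fin π [false] [true]) := by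
  obtain ⟨S, hS1, hS2⟩ := fin_factors π [false] [true] (lyndon_letter _) (lyndon_letter _) rfl
  have h1 : [true] ∉ S := by
    intro h
    have := (hS2 _ h).2.2
    simp at this
  have h2 : [false] ∉ insert [true] S := by
    rw [Finset.mem_insert]
    rintro (h | h)
    · exact absurd h (by decide)
    · have := (hS2 _ h).2.2
      simp at this
  have h3 : (insert [false] (insert [true] S)).card = π.length + 3 := by
    rw [Finset.card_insert_of_notMem h2, Finset.card_insert_of_notMem h1, hS1]
  rw [← h3]
  unfold L
  rw [← Set.ncard_coe_finset]
  apply Set.ncard_le_ncard _ (finite_factors _)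
  intro w hw
  rw [Finset.mem_coe, Finset.mem_insert, Finset.mem_insert] at hw
  rcases hw with rfl | rfl | hw
  · exact ⟨lyndon_letter _, (fin_infix π _ _).1⟩
  · exact ⟨lyndon_letter _, (fin_infix π _ _).2⟩
  · exact ⟨(hS2 w hw).1, (hS2 w hw).2.1⟩

/-- the Stern-Brocot path by subtractive Euclid -/
def path : ℕ → ℕ → ℕ → List Bool
  | 0, _, _ => []
  | k + 1, x, y =>
    if x = y then [] else if y < x then false :: path k (x - y) y else true :: path k x (y - x)

/-- the check for one slope -/
def chk (p : ℕ) : Bool :=
  Nat.ble 14 (path 506 (506 - p) p).length &&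
    (fin (path 506 (506 - p) p) [false] [true] == christoffel 506 p)

theorem chk_all : (List.range 507).all (fun p => !(Nat.gcd p 506 == 1) || chk p) = true := by
  decide +kernel

theorem christoffel_ge {p : ℕ} (hp : p ≤ 506) (hg : Nat.gcd p 506 = 1) :
    17 ≤ L (christoffel 506 p) := by
  have h := chk_all
  rw [List.all_eq_true] at h
  have h1 := h p (List.mem_range.2 (by omega))
  rw [hg] at h1
  have h2 : chk p = true := by simpa using h1
  unfold chk at h2
  rw [Bool.and_eq_true, beq_iff_eq] at h2
  have h3 := Nat.le_of_ble_eq_true h2.1
  have h4 := L_fin (path 506 (506 - p) p)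
  rw [h2.2] at h4
  omega

/-! ### The Lyndon factors of an explicit word -/

/-- Reads the word `s` with a period. Every prefix of `s` that can be a Lyndon word is looked up
in `T`. -/
def scan (s : List Bool) (T : List (List Bool)) : List Bool → List Bool → ℕ → Bool
  | [], _, _ => true
  | _ :: _, [], _ => false
  | true :: rest, true :: per, k => scan s T rest per (k + 1)
  | false :: rest, false :: per, k => scan s T rest per (k + 1)
  | false :: _, true :: _, _ => true
  | true :: rest, false :: _, k => T.contains (s.take (k + 1)) && scan s T rest s (k + 1)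

theorem scan_sound (s : List Bool) (T : List (List Bool)) (rest : List Bool) :
    ∀ (per : List Bool) (k : ℕ) (X Y : List Bool), X ≠ [] → s = X ++ Y ++ rest → s = Y ++ per →
      k = (X ++ Y).length → scan s T rest per k = true →
      ∀ w, w <+: s → k < w.length → Lyndon w → w ∈ T := by
  induction rest with
  | nil =>
    intro per k X Y hX h1 h2 hk _ w hw hl _
    have := hw.length_le
    rw [List.append_nil] at h1
    rw [h1, ← hk] at this
    omega
  | cons c rest ih =>
    intro per k X Y hX h1 h2 hk hscan w hw hl hLy
    have hYX : (X ++ Y).length = X.length + Y.length := List.length_append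
    -- w begins with X ++ Y ++ [c]
    have hw1 : X ++ Y ++ [c] <+: w := by
      apply List.prefix_of_prefix_length_le (l₃ := s) _ hw
      · rw [List.length_append, ← hk]
        simpa using hl
      · refine ⟨rest, ?_⟩
        rw [h1]; simp
    cases per with
    | nil => simp [scan] at hscan
    | cons d per =>
      -- w begins with Y ++ [d]
      have hw2 : Y ++ [d] <+: w := by
        apply List.prefix_of_prefix_length_le (l₃ := s) _ hw
        · rw [List.length_append, List.length_singleton]
          have := List.length_pos_iff.2 hX
          omega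
        · refine ⟨per, ?_⟩
          rw [h2]; simp
      -- the case of equal letters
      have heq : c = d → scan s T rest per (k + 1) = true → w ∈ T := by
        intro hcd hs
        subst hcd
        by_cases hlen : w.length = k + 1
        · -- w = X ++ (Y ++ [c]) has the border Y ++ [c]
          exfalso
          have e : X ++ (Y ++ [c]) = w := by
            rw [← List.append_assoc]
            apply hw1.eq_of_length
            rw [List.length_append, ← hk, hlen]; rfl
          have g := hLy.2 X (Y ++ [c]) e.symm hX (by simp)
          obtain ⟨z, hz⟩ := hw2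
          rw [← hz, lt_prefix] at g
          exact absurd g (by decide)
        · exact ih per (k + 1) X (Y ++ [c]) hX (by rw [h1]; simp) (by rw [h2]; simp)
            (by rw [← List.append_assoc, List.length_append, ← hk]; rfl) hs w hw (by omega) hLy
      cases c with
      | true =>
        cases d with
        | true => exact heq rfl (by simpa [scan] using hscan)
        | false =>
          have hs : T.contains (s.take (k + 1)) = true ∧ scan s T rest s (k + 1) = true := by
            simpa [scan] using hscan
          by_cases hlen : w.length = k + 1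
          · have e : w = s.take (k + 1) := by
              rw [← hlen]; exact List.prefix_iff_eq_take.1 hw
            rw [e]
            simpa using hs.1
          · exact ih s (k + 1) (X ++ Y ++ [true]) [] (by simp) (by rw [h1]; simp) (by simp)
              (by rw [List.append_nil, List.length_append, ← hk]; rfl) hs.2 w hw (by omega) hLy
      | false =>
        cases d with
        | false => exact heq rfl (by simpa [scan] using hscan)
        | true =>
          exfalso
          obtain ⟨z, hz⟩ := hw1
          obtain ⟨z', hz'⟩ := hw2
          have g := hLy.2 X (Y ++ [false] ++ z) (by rw [← hz]; simp) hX (by simp)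
          rw [← hz', List.append_assoc, List.append_assoc, List.singleton_append,
            List.singleton_append, lt_diff'] at g
          exact absurd g (by decide)

/-- all the factors -/
def allscan (T : List (List Bool)) : List Bool → Bool
  | [] => true
  | x :: s => T.contains [x] && scan (x :: s) T s (x :: s) 1 && allscan T s

theorem allscan_sound (T : List (List Bool)) (s : List Bool) (h : allscan T s = true) :
    ∀ w, w <:+: s → Lyndon w → w ∈ T := by
  induction s with
  | nil =>
    intro w hw hL
    exact absurd (List.eq_nil_of_infix_nil hw) hL.1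
  | cons x s ih =>
    intro w hw hL
    unfold allscan at h
    rw [Bool.and_eq_true, Bool.and_eq_true] at h
    rcases List.infix_cons_iff.1 hw with hw | hw
    · have hpos := List.length_pos_iff.2 hL.1
      by_cases h1 : w.length = 1
      · have e : w = [x] := by
          rw [List.prefix_iff_eq_take.1 hw, h1]; rfl
        rw [e]
        simpa using h.1.1
      · exact scan_sound (x :: s) T s (x :: s) 1 [x] [] (by simp) (by simp) (by simp) (by simp)
          h.1.2 w hw (by omega) hL
    · exact ih h.2 w hw hL

def w2 : List Bool := [false, true]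
def w3 : List Bool := false :: w2
def w5 : List Bool := w3 ++ w2
def w8 : List Bool := w3 ++ w5
def w13 : List Bool := w8 ++ w5
def w18 : List Bool := w13 ++ w5
def w21 : List Bool := w8 ++ w13
def w26 : List Bool := w8 ++ w18
def w47 : List Bool := w21 ++ w26
def w73 : List Bool := w47 ++ w26
def w120 : List Bool := w47 ++ w73
def w193 : List Bool := w120 ++ w73
def w313 : List Bool := w120 ++ w193

/-- The word of length 506. -/
def W : List Bool := w313 ++ w193

def T : List (List Bool) :=
  [[false], [true], w2, w3, w5, w8, w13, w18, w21, w26, w47, w73, w120, w193, w313, W]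

theorem W_scan : allscan T W = true := by decide +kernel

theorem W_length : W.length = 506 := by decide +kernel

theorem W_lyndon : Lyndon W := by
  have l2 := lyndon_append (lyndon_letter false) (lyndon_letter true) rfl
  have h2 : Lyndon w2 := l2.1
  have h3 : Lyndon w3 := (lyndon_append (lyndon_letter false) h2 (by decide +kernel)).1
  have h5 : Lyndon w5 := (lyndon_append h3 h2 (by decide +kernel)).1
  have h8 : Lyndon w8 := (lyndon_append h3 h5 (by decide +kernel)).1
  have h13 : Lyndon w13 := (lyndon_append h8 h5 (by decide +kernel)).1
  have h18 : Lyndon w18 := (lyndon_append h13 h5 (by decide +kernel)).1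
  have h21 : Lyndon w21 := (lyndon_append h8 h13 (by decide +kernel)).1
  have h26 : Lyndon w26 := (lyndon_append h8 h18 (by decide +kernel)).1
  have h47 : Lyndon w47 := (lyndon_append h21 h26 (by decide +kernel)).1
  have h73 : Lyndon w73 := (lyndon_append h47 h26 (by decide +kernel)).1
  have h120 : Lyndon w120 := (lyndon_append h47 h73 (by decide +kernel)).1
  have h193 : Lyndon w193 := (lyndon_append h120 h73 (by decide +kernel)).1
  have h313 : Lyndon w313 := (lyndon_append h120 h193 (by decide +kernel)).1
  exact (lyndon_append h313 h193 (by decide +kernel)).1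

theorem L_W : L W ≤ 16 := by
  unfold L
  have h1 : {u : List Bool | Lyndon u ∧ u <:+: W} ⊆ (T.toFinset : Set (List Bool)) := by
    intro u hu
    rw [Finset.mem_coe, List.mem_toFinset]
    exact allscan_sound T W W_scan u hu.2 hu.1
  refine (Set.ncard_le_ncard h1 (Finset.finite_toSet _)).trans ?_
  rw [Set.ncard_coe_finset]
  exact List.toFinset_card_le T

/-- `m(506) ≤ 16`, but every Christoffel word of length `506` has at least `17` Lyndon factors;
so the minimum is not attained by a Christoffel word for `n = 506`. -/
theorem result :
    m 506 ≤ 16 ∧ (∀ p, p ≤ 506 → Nat.gcd p 506 = 1 → 17 ≤ L (christoffel 506 p)) ∧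
    ¬ ∀ n, 1 ≤ n → ∃ p, p ≤ n ∧ Nat.gcd p n = 1 ∧ L (christoffel n p) = m n := by
  have h0 : L W ∈ {k | ∃ w, Lyndon w ∧ w.length = 506 ∧ L w = k} :=
    ⟨W, W_lyndon, W_length, rfl⟩
  have h1 : m 506 ≤ 16 := (Nat.sInf_le h0).trans L_W
  refine ⟨h1, fun p hp hg => christoffel_ge hp hg, ?_⟩
  intro h
  obtain ⟨p, hp, hg, he⟩ := h 506 (by norm_num)
  have := christoffel_ge hp hg
  omega

end Pool.Agent.Results.MP_c50127_co.LengthFiveHundredSix
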